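import Mathlib

namespace Pool.Agent.Results.MP_407f73_al.Counter

def run {Q A : Type} (δ : Q → A → Q) (o : Q → A → A) : Q → List A → List A
  | _, [] => []
  | q, a :: w => o q a :: run δ o (δ q a) w

def runAll {Q A : Type} (δ : Q → A → Q) (o : Q → A → A) (s : List Q) (w : List A) : List A :=
  s.foldl (fun u q => run δ o q u) w

abbrev Q := Option (Bool × Fin 3)

def δ : Q → Fin 3 → Q
  | some (true, c), a => if a = 0 then some (false, c) else some (true, c)
  | _, _ => none

def o : Q → Fin 3 → Fin 3
  | some (false, c), _ => c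
  | _, a => a

def R (u v : List (Fin 3)) : Prop := ∃ s : List Q, s ≠ [] ∧ runAll δ o s u = v

lemma R.trans {u v w : List (Fin 3)} (h : R u v) (h' : R v w) : R u w := by
  obtain ⟨s, h1, rfl⟩ := h
  obtain ⟨t, -, rfl⟩ := h'
  exact ⟨s ++ t, by simp [h1], by simp [runAll]⟩

lemma run_none (w : List (Fin 3)) : run δ o none w = w := by
  induction w with
  | nil => rfl
  | cons a w ih => simp [run, δ, o, ih]

lemma R_head (a c : Fin 3) (u : List (Fin 3)) : R (a :: u) (c :: u) :=
  ⟨[some (false, c)], by simp, by simp [runAll, run, δ, o, run_none]⟩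

lemma R_one (q : Q) (a c : Fin 3) (u : List (Fin 3)) : R (a :: u) (c :: run δ o q u) := by
  rcases q with _ | ⟨_ | _, d⟩
  · rw [run_none]; exact R_head a c u
  · exact ((R_head a 0 u).trans ⟨[some (true, d)], by simp, by simp [runAll, run, δ, o]⟩).trans
      (R_head 0 c _)
  · exact ((R_head a 1 u).trans ⟨[some (true, d)], by simp, by simp [runAll, run, δ, o]⟩).trans
      (R_head 1 c _)

lemma R_all (s : List Q) : ∀ (a c : Fin 3) (u : List (Fin 3)), R (a :: u) (c :: runAll δ o s u) := by
  induction s with
  | nil => exact R_head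
  | cons q s ih => exact fun a c u => (R_one q a a u).trans (ih a c _)

lemma transitive (u : List (Fin 3)) : ∀ v : List (Fin 3), u.length = v.length → R u v := by
  induction u with
  | nil => exact fun v hv => ⟨[none], by simp, (List.length_eq_zero_iff.1 hv.symm).symm⟩
  | cons a u ih =>
    rintro (_ | ⟨c, v⟩) hv
    · simp at hv
    obtain ⟨s, -, rfl⟩ := ih v (by simpa using hv)
    exact R_all s a c u

lemma dual (w : List Q) :
    run (fun a q => o q a) (fun a q => δ q a) 1 w = run (fun a q => o q a) (fun a q => δ q a) 2 w := by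
  induction w with
  | nil => rfl
  | cons q w ih =>
    rcases q with _ | ⟨_ | _, d⟩
    · exact congrArg (none :: ·) ih
    · rfl
    · exact congrArg (some (true, d) :: ·) ih

theorem result : ∃ (Q A : Type) (_ : Fintype Q) (_ : Nonempty Q) (_ : Fintype A)
    (δ : Q → A → Q) (o : Q → A → A), 2 ≤ Fintype.card A ∧
    (∀ u v : List A, u.length = v.length → ∃ s : List Q, s ≠ [] ∧ runAll δ o s u = v) ∧
    ∃ x y : List A, x ≠ [] ∧ y ≠ [] ∧ x ≠ y ∧
      runAll (fun a q => o q a) (fun a q => δ q a) x =
        runAll (fun a q => o q a) (fun a q => δ q a) y :=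
  ⟨Q, Fin 3, inferInstance, inferInstance, inferInstance, δ, o, by simp, transitive, [1], [2],
    by simp, by simp, by simp, funext fun w => dual w⟩

end Pool.Agent.Results.MP_407f73_al.Counter
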